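import Pool.Agent.W345.VO.Stm

/-! Project VO (helper345), VO-LAT: the lattice argument. -/

set_option autoImplicit false

universe u

namespace Pool.Agent.W591.VO

open Pool.Agent.W345.VO

section

variable {M : Type u} [AddCommGroup M] [Module ℂ M] (O : Set (Module.End ℂ M))

/-- The algebra generated by the operators. -/
abbrev RR : Subalgebra ℂ (Module.End ℂ M) := Algebra.adjoin ℂ O

theorem adjoin_stable (N : Submodule ℂ M) (hN : ∀ f ∈ O, ∀ x ∈ N, f x ∈ N)
    (c : Module.End ℂ M) (hc : c ∈ RR O) : ∀ x ∈ N, c x ∈ N := by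
  induction hc using Algebra.adjoin_induction with
  | mem f hf => exact hN f hf
  | algebraMap r =>
    intro x hx
    rw [Module.algebraMap_end_apply]
    exact N.smul_mem _ hx
  | add f g _ _ hf hg => exact fun x hx => N.add_mem (hf x hx) (hg x hx)
  | mul f g _ _ hf hg => exact fun x hx => hf (g x) (hg x hx)

/-- A stable submodule is a submodule over the generated algebra. -/
def lift (N : Submodule ℂ M) (hN : ∀ f ∈ O, ∀ x ∈ N, f x ∈ N) : Submodule (RR O) M where
  carrier := N
  add_mem' := N.add_mem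
  zero_mem' := N.zero_mem
  smul_mem' := by
    rintro ⟨c, hc⟩ x hx
    exact adjoin_stable O N hN c hc x hx

theorem lift_restrict (N : Submodule ℂ M) (hN : ∀ f ∈ O, ∀ x ∈ N, f x ∈ N) :
    (lift O N hN).restrictScalars ℂ = N := by
  ext x
  rfl

theorem stable (N : Submodule (RR O) M) : ∀ f ∈ O, ∀ x ∈ N.restrictScalars ℂ,
    f x ∈ N.restrictScalars ℂ := by
  intro f hf x hx
  exact N.smul_mem (⟨f, Algebra.subset_adjoin hf⟩ : RR O) hx

/-- The irreducible stable submodules. -/
def SI (N : Submodule ℂ M) : Prop := (∀ f ∈ O, ∀ x ∈ N, f x ∈ N) ∧ N ≠ ⊥ ∧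
  ∀ N' : Submodule ℂ M, (∀ f ∈ O, ∀ x ∈ N', f x ∈ N') → N' ≤ N → N' = ⊥ ∨ N' = N

theorem atom_SI (N : Submodule (RR O) M) (hN : IsAtom N) : SI O (N.restrictScalars ℂ) := by
  refine ⟨stable O N, ?_, ?_⟩
  · rw [Ne, Submodule.restrictScalars_eq_bot_iff]
    exact hN.1
  · intro N' hN' hle
    have h1 : lift O N' hN' ≤ N := fun x hx => hle hx
    rcases hN.le_iff.1 h1 with h2 | h2
    · left
      rw [← lift_restrict O N' hN', h2, Submodule.restrictScalars_bot]
    · right
      rw [← lift_restrict O N' hN', h2]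

theorem SI_atom (N : Submodule ℂ M) (hN : SI O N) : IsAtom (lift O N hN.1) := by
  constructor
  · intro h
    apply hN.2.1
    rw [← lift_restrict O N hN.1, h, Submodule.restrictScalars_bot]
  · intro N' hlt
    have h1 : N'.restrictScalars ℂ ≤ N := fun x hx => hlt.le hx
    rcases hN.2.2 _ (stable O N') h1 with h2 | h2
    · rwa [Submodule.restrictScalars_eq_bot_iff] at h2
    · exfalso
      apply hlt.ne
      ext x
      change x ∈ N'.restrictScalars ℂ ↔ x ∈ N
      rw [h2]

end

theorem lat : S_LAT.{u} := by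
  intro M _ _ O hO
  have htop : sSup {N : Submodule (RR O) M | IsAtom N} = ⊤ := by
    rw [eq_top_iff]
    intro w _
    have h1 : (⨆ N ∈ {N : Submodule ℂ M | SI O N}, N) ≤
        (sSup {N : Submodule (RR O) M | IsAtom N}).restrictScalars ℂ := by
      refine iSup₂_le fun N hN => ?_
      rw [← lift_restrict O N hN.1, Submodule.restrictScalars_le]
      exact le_sSup (SI_atom O N hN)
    exact h1 (hO w)
  obtain ⟨s, hs, hst, hsa⟩ := exists_sSupIndep_of_sSup_atoms_eq_top htop
  refine ⟨s, fun i => i.1.restrictScalars ℂ, fun i => atom_SI O i.1 (hsa i.2), ?_, ?_⟩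
  · intro i
    have h1 := (sSupIndep_iff s).1 hs i
    simp_rw [← Submodule.restrictScalars_iSup]
    rw [Submodule.disjoint_restrictScalars_iff]
    exact h1
  · rw [← Submodule.restrictScalars_iSup, ← sSup_eq_iSup', hst, Submodule.restrictScalars_top]

end Pool.Agent.W591.VO
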